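import Pool.Agent.H67.RS.Fin
import Pool.Agent.H67.RS.Complete

/-!
# MP_d365ae_co: `m(3, s) = C(3 s + 2, 3)` for all large `s`

There is `s0` such that for every `s ≥ s0` the maximum number of edges of a 2-resilient 3-graph with
matching number `s` (on any number of vertices) is `C(3 s + 2, 3)`.
-/

set_option autoImplicit false

namespace Pool.Agent.Results.MP_d365ae_co.LargeMatchingNumber

/-- the matching number of `F` is `s` -/
def MatchingNumberIs {n : ℕ} (F : Finset (Finset (Fin n))) (s : ℕ) : Prop :=
  IsGreatest {m : ℕ | ∃ M : Finset (Finset (Fin n)),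
    M ⊆ F ∧ (∀ e ∈ M, ∀ f ∈ M, e ≠ f → Disjoint e f) ∧ M.card = m} s

/-- `F` is a 3-graph on `Fin n` with matching number `s` which is 2-resilient: for every vertex set `T`
with at most two elements the edges avoiding `T` still have matching number `s` -/
def ResilientThreeGraph {n : ℕ} (s : ℕ) (F : Finset (Finset (Fin n))) : Prop :=
  (∀ e ∈ F, e.card = 3) ∧ MatchingNumberIs F s ∧
    ∀ T : Finset (Fin n), T.card ≤ 2 → MatchingNumberIs (F.filter (fun e => Disjoint e T)) s

open Pool.Agent.Q54.TK Pool.Agent.H67.RS

/-- the complete 3-graph on `3 s + 2` vertices, without the edges which meet `T` -/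
theorem complete_aux (s : ℕ) (T : Finset (Fin (3 * s + 2))) (hT : T.card ≤ 2) :
    MatchingNumberIs ((Finset.univ.powersetCard 3).filter (fun e => Disjoint e T)) s := by
  constructor
  · obtain ⟨M, h1, h2, h3⟩ := triples s (Finset.univ \ T) (by
      rw [Finset.card_sdiff_of_subset (Finset.subset_univ T), Finset.card_univ, Fintype.card_fin]
      omega)
    refine ⟨M, fun e he => ?_, h2, h3⟩
    rw [Finset.mem_filter, Finset.mem_powersetCard]
    exact ⟨⟨Finset.subset_univ _, (h1 e he).2⟩,
      Finset.disjoint_of_subset_left (h1 e he).1 Finset.sdiff_disjoint⟩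
  · rintro m ⟨M, hM, hd, rfl⟩
    apply triples_le s M _ hd
    intro e he
    have := hM he
    rw [Finset.mem_filter, Finset.mem_powersetCard] at this
    exact this.1.2

theorem result : ∃ s0 : ℕ, ∀ s : ℕ, s0 ≤ s →
    IsGreatest {m : ℕ | ∃ (n : ℕ) (F : Finset (Finset (Fin n))),
      ResilientThreeGraph s F ∧ F.card = m} ((3 * s + 2).choose 3) := by
  obtain ⟨s0, H⟩ := fin3
  refine ⟨s0 + 1, fun s hs => ⟨?_, ?_⟩⟩
  · refine ⟨3 * s + 2, Finset.univ.powersetCard 3, ⟨?_, ?_, ?_⟩, ?_⟩
    · intro e he
      exact (Finset.mem_powersetCard.mp he).2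
    · have h := complete_aux s ∅ (by simp)
      have e : (Finset.univ.powersetCard 3).filter
          (fun e : Finset (Fin (3 * s + 2)) => Disjoint e ∅) = Finset.univ.powersetCard 3 := by
        apply Finset.filter_true_of_mem
        intro e _
        exact Finset.disjoint_empty_right e
      rw [e] at h
      exact h
    · exact fun T hT => complete_aux s T hT
    · rw [Finset.card_powersetCard, Finset.card_univ, Fintype.card_fin]
  · rintro m ⟨n, F, hF, rfl⟩
    have hyp : Hyp 3 s F := hyp_of 3 s (by omega) (by omega) F hF.1 (fun T hT => hF.2.2 T hT)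
    exact H s (by omega) (Fin n) F hyp

end Pool.Agent.Results.MP_d365ae_co.LargeMatchingNumber
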